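import Pool.Agent.K1H2.UB.Stm

/-!
# The comparison function is nonpositive outside the ball
-/

set_option autoImplicit false

open Finset Pool.Agent.K1H53.BI Pool.Agent.K1H2.UB

namespace Pool.Agent.K1H9.UB

theorem nsq_real (x : V) : (nsq x : ℝ) = ∑ i, (x i : ℝ) ^ 2 := by
  unfold nsq
  push_cast
  refine Finset.sum_congr rfl fun i _ => ?_
  rw [Nat.cast_natAbs, Int.cast_abs, sq_abs]

theorem nrm_sq (x : V) : nrm x ^ 2 = (nsq x : ℝ) := Real.sq_sqrt (Nat.cast_nonneg _)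

theorem q_rv (x : V) : q (rv x) = (nsq x : ℝ) := by
  rw [nsq_real]
  rfl

theorem q_sub (y z : V) : q (rv y - rv z) = (nsq (y - z) : ℝ) := by
  rw [nsq_real]
  unfold q rv
  refine Finset.sum_congr rfl fun i _ => ?_
  simp only [Pi.sub_apply, Int.cast_sub]

theorem nrm_eq (x : V) : nrm x = ‖(WithLp.toLp 2 (rv x) : EuclideanSpace ℝ (Fin 3))‖ := by
  rw [EuclideanSpace.norm_eq]
  unfold nrm
  rw [nsq_real]
  simp only [rv, Real.norm_eq_abs, sq_abs]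

theorem tri (y z : V) : nrm y ≤ nrm (y - z) + nrm z := by
  rw [nrm_eq, nrm_eq, nrm_eq]
  have h : (WithLp.toLp 2 (rv y) : EuclideanSpace ℝ (Fin 3)) =
      WithLp.toLp 2 (rv (y - z)) + WithLp.toLp 2 (rv z) := by
    ext i
    simp [rv]
  rw [h]
  exact norm_add_le _ _

/-- The algebra of the comparison. -/
theorem alg {C κ s B S T : ℝ} (hC : 1 ≤ C) (hκ : 1 ≤ κ) (hκ4 : κ ≤ 4) (hs : 1 ≤ s)
    (hB : 16 * (2 * C + C ^ 2) ≤ B) (hS : S + 3 = κ ^ 2 * s ^ 2 - B) (hS0 : 0 ≤ S) (hT : 0 < T)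
    (hT2 : T ^ 2 = S + 3) : 1 / s + C / s ^ 3 ≤ κ / T := by
  have hs0 : 0 < s := by linarith
  have hC' : 0 ≤ 2 * C + C ^ 2 := by positivity
  have hB0 : 0 ≤ B := by linarith
  have e1 : 1 / s + C / s ^ 3 = (s ^ 2 + C) / s ^ 3 := by
    field_simp
  rw [e1, div_le_div_iff₀ (by positivity) hT]
  have h1 : ((s ^ 2 + C) * T) ^ 2 ≤ (κ * s ^ 3) ^ 2 := by
    have h2 : ((s ^ 2 + C) * T) ^ 2 = (s ^ 2 + C) ^ 2 * (S + 3) := by
      rw [mul_pow, hT2]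
    have hs2 : 1 ≤ s ^ 2 := one_le_pow₀ hs
    have h3 : (s ^ 2 + C) ^ 2 ≤ s ^ 4 + (2 * C + C ^ 2) * s ^ 2 := by
      nlinarith [mul_le_mul_of_nonneg_left hs2 (sq_nonneg C)]
    have h4 : (s ^ 2 + C) ^ 2 * (S + 3) ≤ (s ^ 4 + (2 * C + C ^ 2) * s ^ 2) * (S + 3) :=
      mul_le_mul_of_nonneg_right h3 (by linarith)
    have hκ2 : κ ^ 2 ≤ 16 := by nlinarith
    have h5 : (2 * C + C ^ 2) * κ ^ 2 ≤ B :=
      (mul_le_mul_of_nonneg_left hκ2 hC').trans (by linarith)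
    have h6 : (2 * C + C ^ 2) * κ ^ 2 * s ^ 4 ≤ B * s ^ 4 :=
      mul_le_mul_of_nonneg_right h5 (by positivity)
    have h7 : 0 ≤ B * ((2 * C + C ^ 2) * s ^ 2) := by positivity
    rw [h2]
    refine h4.trans ?_
    rw [hS]
    nlinarith [h6, h7]
  exact le_of_sq_le_sq h1 (by positivity)
where
  le_of_sq_le_sq {a b : ℝ} (h : a ^ 2 ≤ b ^ 2) (hb : 0 ≤ b) : a ≤ b := by
    by_contra hcon
    have := pow_lt_pow_left₀ (not_le.1 hcon) hb two_ne_zero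
    linarith

/-- **Piece OUT.** -/
theorem t_OUT : S_OUT := by
  intro hG C k hC hk
  have hC'0 : 0 ≤ 2 * C + C ^ 2 := by positivity
  refine ⟨10 + 100 * (2 * C + C ^ 2), by linarith, fun N z hR y hy => ?_⟩
  have hR10 : Reg 10 N z := ⟨hR.far, by have := hR.big; linarith⟩
  obtain ⟨hκ1, hκ4, -, -, hid, -, -⟩ := hG N z hR10
  have hbig := hR.big
  have hfar := hR.far
  have hid := hid (rv y)
  rw [q_sub, q_rv, ← nrm_sq] at hid
  have htri := tri y z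
  have hyN : (N : ℝ) < nrm y := by
    have h1 : ((N : ℝ)) ^ 2 < nrm y ^ 2 := by
      rw [nrm_sq]
      exact_mod_cast hy
    exact lt_of_pow_lt_pow_left₀ 2 (Real.sqrt_nonneg _) h1
  have hY : (N : ℝ) ^ 2 ≤ (nsq y : ℝ) := by exact_mod_cast hy.le
  have hup := hk.upp (y - z)
  have hq0 : 0 ≤ q (rv y - zs N z) := Finset.sum_nonneg fun i _ => sq_nonneg _
  have hκdef : kap N z * nrm z = rho N z := by
    unfold kap
    have h0 : nrm z ≠ 0 := by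
      intro h0
      have : dl N z = N := by unfold dl; rw [h0]; ring
      rw [h0] at hfar
      linarith
    exact div_mul_cancel₀ _ h0
  unfold UU
  have hdl : dl N z = N - nrm z := rfl
  have hrho : rho N z = N - dl N z / 10 := rfl
  obtain ⟨a, ha⟩ : ∃ a, a = nrm z := ⟨_, rfl⟩
  obtain ⟨δ, hδ⟩ : ∃ δ, δ = dl N z := ⟨_, rfl⟩
  obtain ⟨κ, hκ⟩ : ∃ κ, κ = kap N z := ⟨_, rfl⟩
  obtain ⟨ρ, hρ⟩ : ∃ ρ, ρ = rho N z := ⟨_, rfl⟩
  obtain ⟨S, hS⟩ : ∃ S, S = q (rv y - zs N z) := ⟨_, rfl⟩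
  obtain ⟨s, hs⟩ : ∃ s, s = nrm (y - z) := ⟨_, rfl⟩
  obtain ⟨Y, hYd⟩ : ∃ Y : ℝ, Y = (nsq y : ℝ) := ⟨_, rfl⟩
  obtain ⟨n, hn⟩ : ∃ n : ℝ, n = (N : ℝ) := ⟨_, rfl⟩
  have ha0 : 0 ≤ a := ha ▸ Real.sqrt_nonneg _
  rw [← hs, ← hS, ← hκ, ← hρ, ← hYd] at hid
  rw [← hδ] at hbig hdl hrho
  rw [← ha] at hfar hκdef htri hdl
  rw [← hκ, ← hρ] at hκdef
  rw [← hκ] at hκ1 hκ4
  rw [← hρ] at hrho
  rw [← hs] at htri hup
  rw [← hS] at hq0
  rw [← hYd] at hY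
  rw [← hn] at hfar hdl hrho hY hyN
  rw [← hκ, ← hS]
  have hsδ : δ ≤ s := by linarith
  have hn0 : 10 ≤ n := by linarith
  have ha1 : 0 < a := by linarith
  have hs1 : 1 ≤ s := by linarith
  have hne : y - z ≠ 0 := by
    intro h0
    rw [h0] at hs
    have h00 : nrm (0 : V) = 0 := by
      unfold nrm nsq
      simp
    rw [h00] at hs
    linarith
  have hup' := hup hne
  have hρ0 : 0 ≤ ρ := by linarith
  have h9 : (κ - 1) * a = 9 / 10 * δ := by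
    have : κ * a = a + 9 / 10 * δ := by rw [hκdef, hrho]; linarith
    linarith
  have h18 : 18 / 10 * δ ≤ (κ ^ 2 - 1) * n := by
    have h1 : (κ ^ 2 - 1) * a = (κ + 1) * (9 / 10 * δ) := by rw [← h9]; ring
    have h2 : 18 / 10 * δ ≤ (κ ^ 2 - 1) * a := by
      rw [h1]
      nlinarith
    have h3 : 0 ≤ κ ^ 2 - 1 := by nlinarith
    exact h2.trans (mul_le_mul_of_nonneg_left (by linarith) h3)
  have hYρ : n * (δ / 10) ≤ Y - ρ ^ 2 := by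
    have h1 : n ^ 2 - ρ ^ 2 = (n + ρ) * (δ / 10) := by rw [hrho]; ring
    have h2 : n * (δ / 10) ≤ (n + ρ) * (δ / 10) :=
      mul_le_mul_of_nonneg_right (by linarith) (by linarith)
    linarith
  have hB : 18 / 100 * δ ^ 2 ≤ (κ ^ 2 - 1) * (Y - ρ ^ 2) := by
    have h3 : 0 ≤ κ ^ 2 - 1 := by nlinarith
    have h4 := mul_le_mul_of_nonneg_left hYρ h3
    have h5 := mul_le_mul_of_nonneg_right h18 (show 0 ≤ δ / 10 by linarith)
    nlinarith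
  have hB16 : 16 * (2 * C + C ^ 2) ≤ (κ ^ 2 - 1) * (Y - ρ ^ 2) - 3 := by
    have h1 : 10 * δ ≤ δ ^ 2 := by nlinarith
    linarith
  have hT : 0 < Real.sqrt (S + 3) := Real.sqrt_pos.2 (by linarith)
  have hT2 : Real.sqrt (S + 3) ^ 2 = S + 3 := Real.sq_sqrt (by linarith)
  have := alg (C := C) (κ := κ) (s := s) (B := (κ ^ 2 - 1) * (Y - ρ ^ 2) - 3) (S := S)
    (T := Real.sqrt (S + 3)) hC hκ1 hκ4 hs1 hB16 (by linarith) hq0 hT hT2
  linarith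

end Pool.Agent.K1H9.UB
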